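import Pool.Agent.W434.BW.StmB

/-! Project BW, task BW-AFB: subdirectness of the restricted constraints. -/

set_option autoImplicit false

namespace Pool.Agent.W369.BW

open Pool.Agent.W434.BW

theorem afb (hM : S_afmain) : S_afb := by
  intro Ω ar u V St A Q _ _ C hC ι _ σ R stp hR hstp i x hx
  have hdom : ∀ r ∈ R, ∀ j, r j ∈ C.S.P (σ j) := by
    intro r hr j
    obtain ⟨h1, -, h3⟩ := hstp j j
    have h4 := (hC.ok.dom (stp j j) (r j) (r j) ((h3 _ _).2 ⟨r, hr, rfl, rfl⟩)).1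
    rwa [h1] at h4
  have hsurj : ∀ j, ∀ c ∈ C.S.P (σ j), ∃ r ∈ R, r j = c := by
    intro j c hc
    obtain ⟨h1, -, h3⟩ := hstp j j
    rw [← h1] at hc
    obtain ⟨b, hb⟩ := hC.ok.ext (stp j j) c hc
    obtain ⟨r, hr, h4, -⟩ := (h3 _ _).1 hb
    exact ⟨r, hr, h4⟩
  obtain ⟨ξ, h1, h2⟩ := hM Ω ar u V St A Q C hC R (C.S.P (σ i))
    (subA (piA C.a ι) R hR) (subA C.a (C.S.P (σ i)) (hC.subP _))
    (fun r => ⟨r.1 i, hdom r.1 r.2 i⟩) ⟨x, hx.1⟩ ι (fun j r => r.1 j) σ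
    (nice_sub R hR (nice_pi ι hC.nice)) (nice_sub _ (hC.subP _) hC.nice) (hC.afP _)
    (fun ω r => rfl)
    (fun c => by
      obtain ⟨r, hr, h⟩ := hsurj i c.1 c.2
      exact ⟨⟨r, hr⟩, Subtype.ext h⟩)
    (fun t ω r => rfl)
    (fun t ξ => hdom ξ.1 ξ.2 t)
    (fun t c hc => by
      obtain ⟨r, hr, h⟩ := hsurj t c hc
      exact ⟨⟨r, hr⟩, h⟩)
    (fun t t' => by
      obtain ⟨h1, h2, h3⟩ := hstp t t'
      refine ⟨[stp t t'], ⟨h1, h2⟩, fun c _ c' hcc => ?_⟩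
      obtain ⟨d, hd, hd'⟩ := hcc
      have hd'' : d = c' := hd'
      subst hd''
      obtain ⟨r, hr, h4, h5⟩ := (h3 _ _).1 hd
      exact ⟨⟨r, hr⟩, h4, h5⟩)
    (fun t π hπ h hh => by
      obtain ⟨g1, g2, g3⟩ := hstp t i
      have hval : ∀ a ∈ C.S.P C.x0, ∀ (c : A) (hc : c ∈ C.S.P (σ i)),
          C.S.Rl (π ++ [stp t i]) a c → C.h0 a = h ⟨c, hc⟩ := by
        intro a ha c hc hac
        obtain ⟨d, hd1, d', hd2, hd3⟩ := (C.S.rl_append _ _ _ _).1 hac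
        have hd3' : d' = c := hd3
        subst hd3'
        obtain ⟨r, hr, h4, h5⟩ := (g3 _ _).1 hd2
        have h6 := hh ⟨r, hr⟩ a ha (by
          show C.S.Rl π a (r t)
          rw [h4]
          exact hd1)
        rw [h6]
        congr 1
        exact Subtype.ext h5
      have hpath : C.S.IsPath (π ++ [stp t i]) C.x0 (σ i) :=
        (C.S.isPath_append _ _ _ _).2 ⟨σ t, hπ.1, g1, g2⟩
      have hrig : C.Rigid (π ++ [stp t i]) (σ i) := by
        refine ⟨hpath, fun a ha a' ha' c hac hac' => ?_⟩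
        have hc : c ∈ C.S.P (σ i) := C.S.rl_dom hC.ok _ _ _ hpath a c ha hac
        rw [hval a ha c hc hac, hval a' ha' c hc hac']
      obtain ⟨b, hb, hb'⟩ := C.S.rl_ext hC.ok _ _ _ (C.S.isPath_rv hC.ok _ _ _ hpath) x hx.1
      have hb'' := (C.S.rl_rv hC.ok _ _ _).1 hb'
      rw [← hval b hb x hx.1 hb'']
      exact hx.2 _ hrig b hb hb'')
  exact ⟨ξ.1, ξ.2, congrArg Subtype.val h1, h2⟩

end Pool.Agent.W369.BW
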