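import Pool.Agent.W434.BW.StmA

/-! Project BW, task BW-L: independence of simple quotients. -/

set_option autoImplicit false

namespace Pool.Agent.W369.BW

open Pool.Agent.W434.BW

/-- two homomorphisms onto algebras: the pairs of values form a full relation or the second map
factors through the first -/
theorem pair_full (hF : S_fun) {Ω : Type} {ar : Ω → ℕ} {u : Tm ar (Fin 3)} {X P Q : Type}
    [Finite P] [Finite Q] {x : Alg ar X} {p : Alg ar P} {q : Alg ar Q} {e : X → P}
    {f : X → Q} (hup : Nice u p) (huq : Nice u q) (hAp : AF p) (hAq : AF q) (hs : Simple q)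
    (he : Hom x p e) (hes : Function.Surjective e) (hf : Hom x q f)
    (hfs : Function.Surjective f) (hne : ∀ h : P → Q, ∃ ξ, f ξ ≠ h (e ξ)) :
    ∀ (y : P) (z : Q), ∃ ξ, e ξ = y ∧ f ξ = z := by
  have hR : Rel p q (fun y z => ∃ ξ, e ξ = y ∧ f ξ = z) := by
    intro ω y z hyz
    choose ξ h1 h2 using hyz
    refine ⟨x ω ξ, ?_, ?_⟩
    · rw [he]
      congr 1
      funext i
      exact h1 i
    · rw [hf]
      congr 1
      funext i
      exact h2 i
  have hSD : SD (fun y z => ∃ ξ, e ξ = y ∧ f ξ = z) := by
    constructor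
    · intro y
      obtain ⟨ξ, hξ⟩ := hes y
      exact ⟨f ξ, ξ, hξ, rfl⟩
    · intro z
      obtain ⟨ξ, hξ⟩ := hfs z
      exact ⟨e ξ, ξ, rfl, hξ⟩
  rcases hF Ω ar u P Q p q _ hup huq hAp hAq hs hR hSD with h | ⟨g, hg⟩
  · exact h
  · exfalso
    obtain ⟨ξ, hξ⟩ := hne g
    exact hξ ((hg (e ξ) (f ξ)).1 ⟨ξ, rfl, rfl⟩)

theorem ll (hp : S_prodAF) (hF : S_fun) (hT : S_tern) : S_L := by
  intro Ω ar u X P Q _ hfP _ x p q e n
  induction n generalizing P with
  | zero =>
    intro f _ _ _ _ _ _ _ _ hes _ _ _ _ y z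
    obtain ⟨ξ, hξ⟩ := hes y
    exact ⟨ξ, hξ, fun i => i.elim0⟩
  | succ n ih =>
    intro f hux hup huq hAp hAq hs hN he hes hf hfs h1 h2 y z
    have hfull := pair_full hF hup huq hAp hAq hs he hes (hf 0) (hfs 0) (h2 0)
    have hX : Nonempty X := by
      by_contra hX
      rw [not_nonempty_iff] at hX
      have hP : IsEmpty P := ⟨fun y => by
        obtain ⟨ξ, -⟩ := hes y
        exact hX.elim ξ⟩
      obtain ⟨ξ, -⟩ := h2 0 (fun y => hP.elim y)
      exact hX.elim ξ
    obtain ⟨ξ₀⟩ := hX
    have hnP : Nonempty P := ⟨e ξ₀⟩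
    have hnQ : Nonempty Q := ⟨f 0 ξ₀⟩
    have h := ih (P × Q) (prodA p q) (fun ξ => (e ξ, f 0 ξ)) (fun i => f i.succ)
      hux (nice_prod hup huq) huq (hp.1 Ω ar P Q p q hup.1 huq.1 hAp hAq) hAq hs hN
      (by
        intro ω ξ
        exact Prod.ext (he ω ξ) (hf 0 ω ξ))
      (by
        rintro ⟨y, z⟩
        obtain ⟨ξ, h3, h4⟩ := hfull y z
        exact ⟨ξ, Prod.ext h3 h4⟩)
      (fun i => hf i.succ) (fun i => hfs i.succ)
      (fun i j hij τ => h1 i.succ j.succ (fun h => hij (Fin.succ_injective n h)) τ)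
      (by
        intro i h
        by_contra hcon
        push Not at hcon
        -- the map `ψ` is a homomorphism
        have hψ : ∀ ω y z, h (p ω y, q ω z) = q ω (fun j => h (y j, z j)) := by
          intro ω y z
          choose ξ h3 h4 using fun j => hfull (y j) (z j)
          have e1 : e (x ω ξ) = p ω y := by
            rw [he]
            congr 1
            funext j
            exact h3 j
          have e2 : f 0 (x ω ξ) = q ω z := by
            rw [hf]
            congr 1
            funext j
            exact h4 j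
          have e3 := hcon (x ω ξ)
          rw [e1, e2, hf] at e3
          rw [← e3]
          congr 1
          funext j
          rw [hcon (ξ j), h3, h4]
        have hz : ∀ z : Q, Function.Surjective (fun y => h (y, z)) := by
          intro z z'
          have hfull2 := pair_full hF huq huq hAq hAq hs (hf 0) (hfs 0) (hf i.succ) (hfs i.succ)
            (fun τ => h1 0 i.succ (Fin.succ_ne_zero i).symm τ)
          obtain ⟨ξ, h3, h4⟩ := hfull2 z z'
          refine ⟨e ξ, ?_⟩
          have := hcon ξ
          rw [h3, h4] at this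
          exact this.symm
        have hy : ∀ y : P, Function.Surjective (fun z => h (y, z)) := by
          intro y z'
          have hfull3 := pair_full hF hup huq hAp hAq hs he hes (hf i.succ) (hfs i.succ)
            (h2 i.succ)
          obtain ⟨ξ, h3, h4⟩ := hfull3 y z'
          refine ⟨f 0 ξ, ?_⟩
          have := hcon ξ
          rw [h3, h4] at this
          exact this.symm
        have hsub := hT Ω ar u P Q Q p q q (fun y z => h (y, z)) hup huq huq hAp hAq hAq hs hs hN
          hψ hy hz
        obtain ⟨ξ, hξ⟩ := h2 0 (fun _ => f 0 ξ₀)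
        exact hξ (hsub _ _))
      (y, z 0) (fun i => z i.succ)
    obtain ⟨ξ, h3, h4⟩ := h
    refine ⟨ξ, congrArg Prod.fst h3, fun i => ?_⟩
    refine Fin.cases ?_ (fun j => ?_) i
    · exact congrArg Prod.snd h3
    · exact h4 j

end Pool.Agent.W369.BW
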