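import Pool.Agent.W434.BW.StmA

/-! Project BW, task BW-LT: the version with a set of quotient maps and one target. -/

set_option autoImplicit false

namespace Pool.Agent.W369.BW

open Pool.Agent.W434.BW

theorem lt (hL : S_L) : S_Lt := by
  intro Ω ar u X P Q _ _ _ x p q e F y B hux hup huq hAp hAq hs hN he hes hF hFs h1 h2
  classical
  set F1 : Type := {f : X → Q // f ∈ F ∧ ¬ ∃ h : P → Q, ∀ ξ, f ξ = h (e ξ)} with hF1
  have hequiv : Equivalence (fun f g : F1 => ∃ τ : Q → Q, ∀ ξ, g.1 ξ = τ (f.1 ξ)) := by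
    refine ⟨fun f => ⟨id, fun _ => rfl⟩, ?_, ?_⟩
    · rintro f g ⟨τ, hτ⟩
      have hsur : Function.Surjective τ := by
        intro z
        obtain ⟨ξ, hξ⟩ := hFs g.1 g.2.1 z
        exact ⟨f.1 ξ, by rw [← hτ, hξ]⟩
      have hinj : Function.Injective τ := Finite.injective_iff_surjective.2 hsur
      refine ⟨Function.surjInv hsur, fun ξ => ?_⟩
      apply hinj
      rw [Function.surjInv_eq hsur, hτ]
    · rintro f g k ⟨τ, hτ⟩ ⟨σ, hσ⟩
      exact ⟨σ ∘ τ, fun ξ => by rw [hσ, hτ]; rfl⟩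
  let r : Setoid F1 := ⟨_, hequiv⟩
  have : Finite F1 := Subtype.finite
  have : Finite (Quotient r) := Quotient.finite r
  obtain ⟨n, ⟨E⟩⟩ := Finite.exists_equiv_fin (Quotient r)
  obtain ⟨ξ, hξ, hξ'⟩ := hL Ω ar u X P Q x p q e n (fun i => ((E.symm i).out).1)
    hux hup huq hAp hAq hs hN he hes
    (fun i => hF _ ((E.symm i).out).2.1) (fun i => hFs _ ((E.symm i).out).2.1)
    (by
      intro i j hij τ
      by_contra hcon
      push Not at hcon
      apply hij
      have h3 : r ((E.symm i).out) ((E.symm j).out) := ⟨τ, hcon⟩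
      have h4 := Quotient.sound h3
      rw [Quotient.out_eq, Quotient.out_eq] at h4
      exact E.symm.injective h4)
    (by
      intro i h
      by_contra hcon
      push Not at hcon
      exact ((E.symm i).out).2.2 ⟨h, hcon⟩)
    y (fun _ => B)
  refine ⟨ξ, hξ, fun g hg => ?_⟩
  by_cases hg' : ∃ h : P → Q, ∀ ξ, g ξ = h (e ξ)
  · obtain ⟨h, hh⟩ := hg'
    rw [hh, hξ]
    exact h2 g hg h hh
  · set g' : F1 := ⟨g, hg, hg'⟩ with hg1
    have h3 : r ((Quotient.mk r g').out) g' := Quotient.exact (Quotient.out_eq _)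
    obtain ⟨τ, hτ⟩ := h3
    have h4 := hξ' (E (Quotient.mk r g'))
    simp only [Equiv.symm_apply_apply] at h4
    have h5 : g ξ = τ (((Quotient.mk r g').out).1 ξ) := hτ ξ
    rw [h5, h4]
    exact h1 _ ((Quotient.mk r g').out).2.1 g hg τ hτ

end Pool.Agent.W369.BW
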